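import Pool.Agent.Lib.MP_e005b4_ag.GP.El
import Pool.Agent.Lib.MP_e005b4_ag.GP.C
import Pool.Agent.Lib.MP_e005b4_ag.GP.GaGb
import Pool.Agent.Lib.MP_e005b4_ag.GP.Int
import Pool.Agent.Lib.MP_e005b4_ag.GP.Dim
import Pool.Agent.Lib.MP_e005b4_ag.GP.Le
import Pool.Agent.Lib.MP_e005b4_ag.GP.ChA
import Pool.Agent.Lib.MP_e005b4_ag.GP.ChB
import Pool.Agent.Lib.MP_e005b4_ag.GP.Irp
import Pool.Agent.Lib.MP_e005b4_ag.GP.Pow
import Pool.Agent.Lib.MP_e005b4_ag.GP.Pl
import Pool.Agent.Lib.MP_e005b4_ag.GP.Q
import Pool.Agent.Lib.MP_e005b4_ag.GP.Dd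
import Pool.Agent.Lib.MP_e005b4_ag.GP.Spn
import Pool.Agent.Lib.MP_e005b4_ag.GP.One
import Pool.Agent.Lib.MP_e005b4_ag.GP.All
import Pool.Agent.Lib.MP_e005b4_ag.GP.Ba
import Pool.Agent.Lib.MP_e005b4_ag.GP.Bb
import Pool.Agent.Lib.MP_e005b4_ag.GP.Bc
import Pool.Agent.Lib.MP_e005b4_ag.GP.GM

/-!
# General projections: rank and border rank

For every projective variety `X` and every `m > dim X` the general projection of `X` to `ℙ^(m-1)` is a
projective variety; its ranks agree with its border ranks if all secant varieties of `X` of dimension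
less than `m` consist of points of the corresponding rank, and they do not agree if some secant variety
of dimension less than `m - 1` has a point of larger rank.
-/

namespace Pool.Agent.Results.MP_e005b4_ag.GeneralProjections

open MvPolynomial Pool.Agent.Lib.MP_e005b4_ag Pool.Agent.Lib.MP_e005b4_ag.GP
open scoped LinearAlgebra.Projectivization

/-- Let `X` be a projective variety and `dim X < m`. For all `m × ι` matrices `M` outside a hypersurface
(`P(M) ≠ 0`): `M` has no zero on `X`; the image `proj M X` in `ℙ^(m-1)` is a projective variety; it has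
rank equal to border rank at all points if every secant variety of `X` of dimension less than `m`
consists of the points in the spans of `r` points of `X`; and it does not have this property if this
fails for some secant variety of dimension less than some `k < m`. -/
theorem result (ι : Type) [Fintype ι] (X : Set (PSpace ι)) (m : ℕ) (hX : IsProjectiveVariety X)
    (hm : DimLT X m) :
    ∃ P : MvPolynomial (Fin m × ι) ℂ, P ≠ 0 ∧ ∀ M : Matrix (Fin m) ι ℂ,
      eval (fun p => M p.1 p.2) P ≠ 0 →
        (∀ p ∈ X, M.mulVec p.rep ≠ 0) ∧ IsProjectiveVariety (proj M X) ∧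
        ((∀ r, DimLT (secantVariety X r) m → secantVariety X r ⊆ secantSet X r) →
          ∀ q, xRank (proj M X) q = xBorderRank (proj M X) q) ∧
        ∀ r k, k < m → DimLT (secantVariety X r) k → ¬ secantVariety X r ⊆ secantSet X r →
          ¬ ∀ q, xRank (proj M X) q = xBorderRank (proj M X) q := by
  have hC : StC := gC gEl
  have hGa : StGa := gGa gEl
  have hInt : StInt := gInt hC
  have hQ : StQ := gQ hGa gGb (gDim hInt) hC
  have hDd : StDd := gDd (gPl gIrp) (gLe hInt gGb) hGa
  have hOne : StOne := gOne (gPow gIrp) (gChB gChA) hQ hDd hGa hC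
  exact gGM hGa hC (gAll hOne gSpn) gBa gBb (gBc gBb) ι X m hX hm

end Pool.Agent.Results.MP_e005b4_ag.GeneralProjections
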