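import Pool.Agent.Lib.MP_e005b4_ag.GP.El
import Pool.Agent.Lib.MP_e005b4_ag.GP.C
import Pool.Agent.Lib.MP_e005b4_ag.GP.GaGb
import Pool.Agent.Lib.MP_e005b4_ag.GP.Int
import Pool.Agent.Lib.MP_e005b4_ag.GP.Dim
import Pool.Agent.Lib.MP_e005b4_ag.GP.Le
import Pool.Agent.Lib.MP_e005b4_ag.GP.Irp
import Pool.Agent.Lib.MP_e005b4_ag.GP.Pow
import Pool.Agent.Lib.MP_e005b4_ag.GP.Ba
import Pool.Agent.Lib.MP_e005b4_ag.GP.Bb
import Pool.Agent.Lib.MP_e005b4_ag.GP.Bc
import Pool.Agent.Lib.MP_e005b4_ag.LD.Nw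
import Pool.Agent.Lib.MP_e005b4_ag.LD.Un
import Pool.Agent.Lib.MP_e005b4_ag.LD.Gr
import Pool.Agent.Lib.MP_e005b4_ag.LD.Co
import Pool.Agent.Lib.MP_e005b4_ag.LD.QL
import Pool.Agent.Lib.MP_e005b4_ag.LD.LL
import Pool.Agent.Lib.MP_e005b4_ag.LD.Tr
import Pool.Agent.Lib.MP_e005b4_ag.LD.Ul
import Pool.Agent.Lib.MP_e005b4_ag.LD.Up
import Pool.Agent.Lib.MP_e005b4_ag.LD.Qd
import Pool.Agent.Lib.MP_e005b4_ag.LD.Ld
import Pool.Agent.Lib.MP_e005b4_ag.LD.Se
import Pool.Agent.Lib.MP_e005b4_ag.LD.MA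
import Pool.Agent.Lib.MP_e005b4_ag.LD.KM
import Pool.Agent.Lib.MP_e005b4_ag.LD.Fw
import Pool.Agent.Lib.MP_e005b4_ag.LD.I1
import Pool.Agent.Lib.MP_e005b4_ag.LD.I2
import Pool.Agent.Lib.MP_e005b4_ag.LD.S1
import Pool.Agent.Lib.MP_e005b4_ag.LD.S2
import Pool.Agent.Lib.MP_e005b4_ag.LD.P1
import Pool.Agent.Lib.MP_e005b4_ag.LD.P2
import Pool.Agent.Lib.MP_e005b4_ag.LD.Xi
import Pool.Agent.Lib.MP_e005b4_ag.LD.Va
import Pool.Agent.Lib.MP_e005b4_ag.LD.Vb
import Pool.Agent.Lib.MP_e005b4_ag.LD.Vc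
import Pool.Agent.Lib.MP_e005b4_ag.LD.Wa
import Pool.Agent.Lib.MP_e005b4_ag.LD.Wb
import Pool.Agent.Lib.MP_e005b4_ag.LD.Wc
import Pool.Agent.Lib.MP_e005b4_ag.LD.T1T
import Pool.Agent.Lib.MP_e005b4_ag.LD.T2T
import Pool.Agent.Lib.MP_e005b4_ag.LD.Dm
import Pool.Agent.Lib.MP_e005b4_ag.LD.D1
import Pool.Agent.Lib.MP_e005b4_ag.LD.D2
import Pool.Agent.Lib.MP_e005b4_ag.LD.E1
import Pool.Agent.Lib.MP_e005b4_ag.LD.E2
import Pool.Agent.Lib.MP_e005b4_ag.LD.B1
import Pool.Agent.Lib.MP_e005b4_ag.LD.B2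

/-!
# General hypersurface sections of large degree: rank and border rank

(A) General hypersurface sections of degree `d ≥ 16 N + 7` of varieties `Z` in `ℙ^(N-1)` with rank equal
to border rank everywhere keep this property, if every point of `Z` is on a line in `Z` and every point
of rank `2` is in the span of an irreducible quadric surface in `Z`. (B) Two series of examples, smooth,
of every dimension `n ≥ 1`, whose secant varieties have the expected dimension `2 n + 1` and do not fill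
the space: sections of the cone over the second Veronese embedding and of Segre varieties.
-/

namespace Pool.Agent.Results.MP_e005b4_ag.LargeDegreeSections

open MvPolynomial Pool.Agent.Lib.MP_e005b4_ag Pool.Agent.Lib.MP_e005b4_ag.GP
  Pool.Agent.Lib.MP_e005b4_ag.LD
open scoped LinearAlgebra.Projectivization

/-- Sections `cut Z F` by hypersurfaces `F = 0` of degree `d`, where `F` is general: `Φ` is not zero at
the coefficients of `F`, for a nonzero polynomial `Φ` which depends only on `d` and on the space. -/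
theorem result :
    (∀ (ι : Type) [Fintype ι] (d : ℕ), 16 * Fintype.card ι + 7 ≤ d →
      ∃ Φ : MvPolynomial (Ex ι d) ℂ, Φ ≠ 0 ∧ ∀ F : MvPolynomial ι ℂ, F.IsHomogeneous d →
        eval (fun a : Ex ι d => coeff a.1 F) Φ ≠ 0 → ∀ Z : Set (PSpace ι), IsProjectiveVariety Z →
          (∀ p, xRank Z p = xBorderRank Z p) → (∀ p ∈ Z, OnLine Z p) →
          (∀ p, xRank Z p = 2 → OnQuadric Z p) →
          (∀ p, xRank (cut Z F) p = xBorderRank (cut Z F) p) ∧
          ∀ r, 2 ≤ r → secantSet (cut Z F) r = secantSet Z r) ∧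
    (∀ n d : ℕ, 1 ≤ n → 16 * Fintype.card (Option (Sym2 (Fin (n + 1)))) + 7 ≤ d →
      ∃ Φ : MvPolynomial (Ex (Option (Sym2 (Fin (n + 1)))) d) ℂ, Φ ≠ 0 ∧
        ∀ F : MvPolynomial (Option (Sym2 (Fin (n + 1)))) ℂ, F.IsHomogeneous d →
          eval (fun a : Ex (Option (Sym2 (Fin (n + 1)))) d => coeff a.1 F) Φ ≠ 0 →
            IsProjectiveVariety (cut (verCone n) F) ∧ TanDim (cut (verCone n) F) n ∧
            HasDim (cut (verCone n) F) n ∧
            HasDim (secantVariety (cut (verCone n) F) 2) (2 * n + 1) ∧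
            Spans (cut (verCone n) F) ∧ (2 ≤ n → secantVariety (cut (verCone n) F) 2 ≠ Set.univ) ∧
            ∀ p, xRank (cut (verCone n) F) p = xBorderRank (cut (verCone n) F) p) ∧
    ∀ a b n d : ℕ, 1 ≤ a → 1 ≤ b → n + 1 = a + b →
      16 * Fintype.card (Fin (a + 1) × Fin (b + 1)) + 7 ≤ d →
      ∃ Φ : MvPolynomial (Ex (Fin (a + 1) × Fin (b + 1)) d) ℂ, Φ ≠ 0 ∧
        ∀ F : MvPolynomial (Fin (a + 1) × Fin (b + 1)) ℂ, F.IsHomogeneous d →
          eval (fun c : Ex (Fin (a + 1) × Fin (b + 1)) d => coeff c.1 F) Φ ≠ 0 →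
            IsProjectiveVariety (cut (segre a b) F) ∧ TanDim (cut (segre a b) F) n ∧
            HasDim (cut (segre a b) F) n ∧ HasDim (secantVariety (cut (segre a b) F) 2) (2 * n + 1) ∧
            Spans (cut (segre a b) F) ∧
            (2 ≤ a → 2 ≤ b → secantVariety (cut (segre a b) F) 2 ≠ Set.univ) ∧
            ∀ p, xRank (cut (segre a b) F) p = xBorderRank (cut (segre a b) F) p := by
  have hC : StC := gC gEl
  have hInt : StInt := gInt hC
  have hLe : StLe := gLe hInt gGb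
  have hPow : StPow := gPow gIrp
  have hBc : StBc := gBc gBb
  have hCo : StCo := lCo lNw lUn lGr
  have hQd : StQd := lQd lUp lUl lTr (lQL hCo)
  have hLd : StLd := lLd lUp lUl lTr (lLL hCo)
  have hMA : StMA := lMA (lSe hQd hLd) gBb hBc
  have hDm : StDm := lDm hPow hLe gBa gBb hBc
  refine ⟨hMA, ?_, ?_⟩
  · exact lB1 hMA (lI1 lKM lFw) (lS1 lKM) lP1 lXi lVa (lVb lVa) (lVc lVa (lVb lVa)) (lT1T lVa) hDm
      (lD1 hPow hLe gBa gBb hBc lVa (lVb lVa)) lE1
  · exact lB2 hMA (lI2 lKM lFw) (lS2 lKM) lP2 lXi lWa (lWb lWa) (lWc lWa (lWb lWa)) (lT2T lWa) hDm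
      (lD2 hPow hLe gBa gBb hBc lWa (lWb lWa)) (lE2 (gDim hInt) gBa hBc lWa)

end Pool.Agent.Results.MP_e005b4_ag.LargeDegreeSections
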