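import Pool.Agent.Lib.MP_e005b4_ag.Ver.Fac
import Pool.Agent.Lib.MP_e005b4_ag.Ver.Sym

/-!
# Segre-Veronese images of products of arbitrary varieties

Let `Y j` be projective varieties with at least two points, embedded in a tensor product with `m ≥ 2`
slots, where slot `s` is used by the factor `c s` (so `Y j` is re-embedded by the forms of degree the
number of slots with `c s = j`). If all ranks with respect to the image agree with the border ranks
then there are exactly two slots, one factor is a linear subspace, and all factors have the property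
themselves. In particular a Veronese re-embedding of degree `d ≥ 2` of a variety `Y` has the property
if and only if `d = 2` and `Y` is a linear subspace.
-/

namespace Pool.Agent.Results.MP_e005b4_ag.SegreVeronese

open Pool.Agent.Lib.MP_e005b4_ag
open scoped LinearAlgebra.Projectivization

/-- The Segre-Veronese image `segVer c Y` of a product of projective varieties `Y j` with at least two
points, with `m ≥ 2` slots all of whose factors occur. If every rank equals the border rank, then
`m = 2`, some `Y j` is a linear subspace, and every `Y j` has the property. Conversely, the property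
holds for `m = 2` and one factor which is a linear subspace. -/
theorem result (k m : ℕ) (n : Fin k → ℕ) (Y : ∀ j, Set (PSpace (Fin (n j)))) (c : Fin m → Fin k)
    (hY : ∀ j, IsProjectiveVariety (Y j)) (hnt : ∀ j, (Y j).Nontrivial)
    (hc : Function.Surjective c) (hm : 2 ≤ m) :
    ((∀ p, xRank (segVer c Y) p = xBorderRank (segVer c Y) p) →
      m = 2 ∧ (∃ j, IsLinearSpace (Y j)) ∧ ∀ j, ∀ q, xRank (Y j) q = xBorderRank (Y j) q) ∧
    (m = 2 → k = 1 → (∀ j, IsLinearSpace (Y j)) →
      ∀ p, xRank (segVer c Y) p = xBorderRank (segVer c Y) p) := by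
  classical
  constructor
  · intro hprop
    -- a countable algebraically closed field of definition of everything
    have hall : ∃ K : Subfield ℂ, Closed K ∧ (K : Set ℂ).Countable ∧ ∀ j, DefinedOver K (Y j) := by
      choose L hL hLc _ hLd using fun j => exists_definedOver (Y j) (T := ∅) Set.countable_empty
      have hcount : (⋃ j, (L j : Set ℂ)).Countable := Set.countable_iUnion hLc
      refine ⟨acl (⋃ j, (L j : Set ℂ)), acl_closed _, countable_acl hcount, fun j => ?_⟩
      exact DefinedOver.mono (fun a ha => subset_acl _ (Set.mem_iUnion.2 ⟨j, ha⟩)) (hLd j)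
    obtain ⟨K0, -, hK0c, hK0d⟩ := hall
    obtain ⟨K, hK, hKc, hKT, hdef⟩ := exists_definedOver (segVer c Y) hK0c
    have hdefY : ∀ j, DefinedOver K (Y j) := fun j => DefinedOver.mono hKT (hK0d j)
    have hm2 : m = 2 := by
      by_contra hne
      obtain ⟨m', rfl⟩ : ∃ m', m = m' + 3 := ⟨m - 3, by omega⟩
      exact not_three hY hnt hprop hK hKc hdef hdefY
    subst hm2
    obtain ⟨j0, hj0⟩ := two_linear hY hprop hK hKc hdef hdefY
    refine ⟨rfl, ⟨j0, hj0⟩, fun j q => ?_⟩
    by_cases hinj : Function.Injective c
    · obtain ⟨s, rfl⟩ := hc j
      exact factor_prop hinj (fun j => (hY j).2.1) hprop s q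
    · have h01 : c 0 = c 1 := by
        by_contra h
        apply hinj
        intro a b hab
        fin_cases a <;> fin_cases b
        · rfl
        · exact absurd hab h
        · exact absurd hab.symm h
        · rfl
      have hsub : ∀ j, j = c 0 := by
        intro j
        obtain ⟨s, rfl⟩ := hc j
        fin_cases s
        · rfl
        · exact h01.symm
      have h1 : j = j0 := (hsub j).trans (hsub j0).symm
      subst h1
      exact linear_prop (hY j).1 (hY j).2.1 hj0 q
  · intro hm2 hk hlin
    subst hm2 hk
    have hc0 : c = fun _ => 0 := by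
      funext s
      exact Subsingleton.elim _ _
    subst hc0
    obtain ⟨W, hW⟩ := hlin 0
    refine ver_two (N := n 0) W fun w => ?_
    rw [mem_cone_segVer (by norm_num)]
    have hcone : ∀ v : Fin (n 0) → ℂ, v ∈ cone (Y 0) ↔ v ∈ W := by
      intro v
      by_cases hv : v = 0
      · rw [hv]
        exact ⟨fun _ => W.zero_mem, fun _ => zero_mem_cone _⟩
      · rw [mem_cone_iff hv, hW, Projectivization.submodule_mk, Submodule.span_singleton_le_iff_mem]
    constructor
    · rintro ⟨y, hy, hyw⟩
      refine ⟨y 0, (hcone _).1 (hy 0), fun α => ?_⟩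
      rw [hyw, Fin.prod_univ_two]
    · rintro ⟨y, hy, hyw⟩
      refine ⟨fun j => (Subsingleton.elim 0 j : (0 : Fin 1) = j) ▸ y, fun j => ?_, fun α => ?_⟩
      · have hj : j = 0 := Subsingleton.elim _ _
        subst hj
        exact (hcone _).2 hy
      · rw [hyw, Fin.prod_univ_two]

end Pool.Agent.Results.MP_e005b4_ag.SegreVeronese
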