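import Pool.Agent.Lib.MP_e005b4_ag.Tor.Pts
import Pool.Agent.Lib.MP_e005b4_ag.Tor.Bin
import Pool.Agent.Lib.MP_e005b4_ag.Tor.Lim
import Pool.Agent.Lib.MP_e005b4_ag.Tor.Pth
import Pool.Agent.Lib.MP_e005b4_ag.Tor.PI
import Pool.Agent.Lib.MP_e005b4_ag.Tor.PE
import Pool.Agent.Lib.MP_e005b4_ag.Tor.ObV
import Pool.Agent.Lib.MP_e005b4_ag.Tor.ObE
import Pool.Agent.Lib.MP_e005b4_ag.Tor.Var
import Pool.Agent.Lib.MP_e005b4_ag.Tor.Rnk
import Pool.Agent.Lib.MP_e005b4_ag.Tor.ElD
import Pool.Agent.Lib.MP_e005b4_ag.Tor.ElQ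
import Pool.Agent.Lib.MP_e005b4_ag.Tor.SufD
import Pool.Agent.Lib.MP_e005b4_ag.Tor.RkQ
import Pool.Agent.Lib.MP_e005b4_ag.Tor.SufQ
import Pool.Agent.Lib.MP_e005b4_ag.Tor.Nbr
import Pool.Agent.Lib.MP_e005b4_ag.Tor.Four
import Pool.Agent.Lib.MP_e005b4_ag.Tor.CaI
import Pool.Agent.Lib.MP_e005b4_ag.Tor.CaII
import Pool.Agent.Lib.MP_e005b4_ag.Tor.Tr
import Pool.Agent.Lib.MP_e005b4_ag.Tor.Ver
import Pool.Agent.Lib.MP_e005b4_ag.Tor.Cmb
import Pool.Agent.Lib.MP_e005b4_ag.Tor.Main

/-!
# Smooth toric varieties on which rank equals border rank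

`A` is a finite nonempty set of lattice points in `ℤⁿ` which contains all lattice points of the
segments between its points, and which is smooth. The toric variety of `A`, and every cone over it, is a
projective variety `X`; all its ranks agree with the border ranks if and only if `A` is, up to an affine
change of the coordinates of `ℤⁿ`, one of the sets `D(C)` or `Q(J)`; the same holds if only the points
of border rank two are considered.
-/

namespace Pool.Agent.Results.MP_e005b4_ag.SmoothToric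

open Pool.Agent.Lib.MP_e005b4_ag
open scoped LinearAlgebra.Projectivization

/-- Let `A ⊆ ℤⁿ` be finite, nonempty, segment closed and smooth, and let `X = toricCone A k` be the cone,
with `k` additional coordinates, over the toric variety of `A`. Then `X` is a projective variety; every
point has `X`-rank equal to its `X`-border rank if and only if `A` is a standard set `D(C)` or `Q(J)` in
some affine coordinates of `ℤⁿ`; and every point of `X`-border rank two has `X`-rank two if and only if
the same condition holds. -/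
theorem result (n k : ℕ) (A : Finset (Fin n → ℤ)) (hA : A.Nonempty) (hseg : SegClosed A)
    (hsm : SmoothSet A) :
    IsProjectiveVariety (toricCone A k) ∧
      ((∀ p, xRank (toricCone A k) p = xBorderRank (toricCone A k) p) ↔ StdSet A) ∧
      ((∀ p, xBorderRank (toricCone A k) p = 2 → xRank (toricCone A k) p = 2) ↔ StdSet A) := by
  have hSufD : StSufD := tSufD tBin (tElD tPts tPth (tVar tPts)) tRnk
  have hSufQ : StSufQ := tSufQ tBin (tElQ tPts tPth (tVar tPts)) tRkQ tRnk
  have hObV : StObV := tObV tBin (tPI tPts tLim)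
  have hObE : StObE := tObE tBin (tPE tPts tLim)
  have hCmb : StCmb := tCmb (tCaI tNbr tFour) (tCaII tNbr tFour) tTr tVer
  have hMain : StMain := tMain (tVar tPts) hObV hObE hCmb hSufD hSufQ
  obtain ⟨hX, hiff⟩ := hMain n k A hA hseg hsm
  refine ⟨hX, hiff, fun h => ?_, fun h p hp => ?_⟩
  · have h2 : secantVariety (toricCone A k) 2 ⊆ secantSet (toricCone A k) 2 :=
      secant_two_of_rank hX.1 hX.2.1 h
    refine hCmb n A hA hseg hsm fun u b hc hO => ?_
    obtain ⟨o1, o2, o4⟩ := hObV n k A u b hc h2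
    rcases hO with ⟨i, a1, a2⟩ | ⟨i, j, hij, a1, a2, a3⟩ | ⟨i, j, hij, a1, a2, a3⟩ |
      ⟨i, j, l, hij, hil, hjl, a1, a2, a3, a4⟩
    · exact o1 i a1 a2
    · exact o2 i j hij a1 a2 a3
    · exact hObE n k A u b hc h2 i j hij a1 a2 a3
    · exact o4 i j l hij hil hjl a1 a2 a3 a4
  · rw [hiff.2 h p, hp]

end Pool.Agent.Results.MP_e005b4_ag.SmoothToric
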